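import Pool.Agent.H12.KP.Targets4

/-!
# Board kpi_modules: row TRANSC
-/

set_option autoImplicit false

namespace Pool.Agent.H86.KP

open Pool.Agent.H12.KP Polynomial TensorProduct

universe u v

theorem pf_TRANSC : S_TRANSC.{u, v} := by
  classical
  intro A B _ _ _ _ _ _ π hπ hπB T M hM hspan x y hx hy hπy hyx
  rintro ⟨F, hF, hFT⟩
  have hCu : ¬ IsUnit (Polynomial.C π) := fun h => hπ.not_isUnit (Polynomial.isUnit_C.1 h)
  obtain ⟨n, F1, hF1, hFF⟩ := WfDvdMonoid.max_power_factor' hF hCu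
  have h1 : aeval T F1 = 0 := by
    rw [hFF, map_mul, map_pow, aeval_C] at hFT
    exact (mul_eq_zero.1 hFT).resolve_left (pow_ne_zero _ hπB)
  obtain ⟨i, hi⟩ : ∃ i, ¬ π ∣ F1.coeff i := by
    by_contra h
    push Not at h
    exact hF1 ((C_dvd_iff_dvd_coeff π F1).2 h)
  obtain ⟨S, hS⟩ : ∃ S, S = F1.support.filter (fun i => ¬ π ∣ F1.coeff i) := ⟨_, rfl⟩
  have hmem : ∀ j, ¬ π ∣ F1.coeff j → j ∈ S := by
    intro j hj
    rw [hS, Finset.mem_filter, mem_support_iff]
    exact ⟨fun h => hj (by rw [h]; exact dvd_zero _), hj⟩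
  have hne : S.Nonempty := ⟨i, hmem i hi⟩
  obtain ⟨N, hN⟩ : ∃ N, N = S.max' hne := ⟨_, rfl⟩
  have hNS : N ∈ S := by rw [hN]; exact S.max'_mem hne
  have hNd : ¬ π ∣ F1.coeff N := by
    rw [hS, Finset.mem_filter] at hNS
    exact hNS.2
  have hgt : ∀ j, N < j → π ∣ F1.coeff j := by
    intro j hj
    by_contra h
    have := S.le_max' j (hmem j h)
    omega
  have hmaxI : IsLocalRing.maximalIdeal A = Ideal.span {π} :=
    (IsDiscreteValuationRing.irreducible_iff_uniformizer π).1 hπ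
  have hu : IsUnit (F1.coeff N) := by
    by_contra h
    have h2 : F1.coeff N ∈ IsLocalRing.maximalIdeal A := (IsLocalRing.mem_maximalIdeal _).2 h
    rw [hmaxI, Ideal.mem_span_singleton] at h2
    exact hNd h2
  obtain ⟨w, hw⟩ := hu
  -- the quotient
  let f : B →ₐ[A] B ⧸ y := Ideal.Quotient.mkₐ A y
  have hfs : Function.Surjective f := Ideal.Quotient.mkₐ_surjective A y
  have hf0 : ∀ a : A, π ∣ a → algebraMap A (B ⧸ y) a = 0 := by
    rintro a ⟨b, rfl⟩
    have h2 : algebraMap A (B ⧸ y) (π * b) = Ideal.Quotient.mk y (algebraMap A B (π * b)) := rfl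
    rw [h2, Ideal.Quotient.eq_zero_iff_mem, map_mul]
    exact Ideal.mul_mem_right _ _ hπy
  have h2 : aeval (f T) F1 = 0 := by
    rw [aeval_algHom_apply, h1, map_zero]
  have h3 : ∑ j ∈ Finset.range (N + 1), algebraMap A (B ⧸ y) (F1.coeff j) * f T ^ j = 0 := by
    rw [aeval_eq_sum_range' (n := max (N + 1) (F1.natDegree + 1)) (by omega)] at h2
    rw [← h2]
    simp only [Algebra.smul_def]
    refine Finset.sum_subset (fun j hj => ?_) (fun j _ hj => ?_)
    · rw [Finset.mem_range] at hj ⊢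
      omega
    · rw [Finset.mem_range, not_lt] at hj
      rw [hf0 _ (hgt j (by omega)), zero_mul]
  have hint : IsIntegral A (f T) := by
    refine ⟨X ^ N + ∑ j : Fin N, C (((w⁻¹ : Aˣ) : A) * F1.coeff j) * X ^ (j : ℕ),
      monic_X_pow_add (degree_sum_fin_lt _), ?_⟩
    rw [← aeval_def, map_add, map_pow, aeval_X, map_sum]
    simp only [map_mul, aeval_C, map_pow, aeval_X]
    rw [Finset.sum_range_succ, Finset.sum_range, ← hw] at h3
    have h4 : algebraMap A (B ⧸ y) ((w⁻¹ : Aˣ) : A) * algebraMap A (B ⧸ y) (w : A) = 1 := by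
      rw [← map_mul, Units.inv_mul, map_one]
    have h5 : ∑ j : Fin N, algebraMap A (B ⧸ y) ((w⁻¹ : Aˣ) : A) *
        algebraMap A (B ⧸ y) (F1.coeff j) * f T ^ (j : ℕ) =
        algebraMap A (B ⧸ y) ((w⁻¹ : Aˣ) : A) *
          ∑ j : Fin N, algebraMap A (B ⧸ y) (F1.coeff j) * f T ^ (j : ℕ) := by
      rw [Finset.mul_sum]
      exact Finset.sum_congr rfl fun j _ => by ring
    rw [h5]
    linear_combination (algebraMap A (B ⧸ y) ((w⁻¹ : Aˣ) : A)) * h3 - f T ^ N * h4
  -- finiteness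
  have hfin : Module.Finite A (B ⧸ y) := by
    refine ⟨?_⟩
    have h5 : (⊤ : Submodule A (B ⧸ y)) =
        Subalgebra.toSubmodule (Algebra.adjoin A {f T}) * M.map f.toLinearMap := by
      refine le_antisymm (fun z _ => ?_) le_top
      obtain ⟨z', rfl⟩ := hfs z
      have h6 : f z' ∈ (Submodule.span A {z : B | ∃ i : ℕ, ∃ m ∈ M, z = T ^ i * m}).map
          f.toLinearMap := ⟨z', hspan z', rfl⟩
      refine (Submodule.map_le_iff_le_comap.2 (Submodule.span_le.2 ?_)) h6
      rintro _ ⟨i, m, hm, rfl⟩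
      show f (T ^ i * m) ∈
        Subalgebra.toSubmodule (Algebra.adjoin A {f T}) * M.map f.toLinearMap
      rw [map_mul, map_pow]
      refine Submodule.mul_mem_mul ?_ ⟨m, hm, rfl⟩
      exact Subalgebra.pow_mem _ (Algebra.subset_adjoin (Set.mem_singleton _)) i
    rw [h5]
    exact (hint.fg_adjoin_singleton).mul (hM.map _)
  have : Algebra.IsIntegral A (B ⧸ y) := Algebra.IsIntegral.of_finite A (B ⧸ y)
  have : IsDomain (B ⧸ y) := Ideal.Quotient.isDomain y
  have hbp : (⊥ : Ideal (B ⧸ y)).IsPrime := Ideal.isPrime_bot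
  have hmax : (Ideal.comap (algebraMap A (B ⧸ y)) ⊥).IsMaximal := by
    have h6 : IsLocalRing.maximalIdeal A = Ideal.comap (algebraMap A (B ⧸ y)) ⊥ := by
      refine (IsLocalRing.maximalIdeal.isMaximal A).eq_of_le ?_ ?_
      · exact (Ideal.IsPrime.comap (algebraMap A (B ⧸ y))).ne_top
      · rw [hmaxI, Ideal.span_le]
        intro a ha
        rw [Set.mem_singleton_iff] at ha
        subst ha
        show algebraMap A (B ⧸ y) a = 0
        exact hf0 a dvd_rfl
    rw [← h6]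
    exact IsLocalRing.maximalIdeal.isMaximal A
  have h7 := Ideal.isMaximal_of_isIntegral_of_isMaximal_comap (⊥ : Ideal (B ⧸ y)) hmax
  have h8 : y.IsMaximal := by
    have h9 := Ideal.comap_isMaximal_of_surjective (Ideal.Quotient.mk y)
      Ideal.Quotient.mk_surjective (K := ⊥)
    rwa [← RingHom.ker_eq_comap_bot, Ideal.mk_ker] at h9
  exact hx.ne_top (h8.1.2 x hyx)

end Pool.Agent.H86.KP
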